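import Pool.Agent.L0h52.BZ.Stm

/-!
# BZ, CS: Cauchy-Schwarz (helper71)
-/

set_option autoImplicit false

namespace Pool.Agent.L0h71.BZ

open MeasureTheory Set Filter

lemma rpow_exp {p x : ℝ} (hp : 0 < p) (hx : 0 < x) : x ^ p * Real.exp (-x) ≤ p ^ p := by
  have h1 : x / p ≤ Real.exp (x / p) := by
    have := Real.add_one_le_exp (x / p)
    linarith
  have h2 : (x / p) ^ p ≤ Real.exp x := by
    calc (x / p) ^ p ≤ (Real.exp (x / p)) ^ p := Real.rpow_le_rpow (by positivity) h1 hp.le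
      _ = Real.exp (x / p * p) := (Real.exp_mul _ _).symm
      _ = Real.exp x := by rw [div_mul_cancel₀ _ hp.ne']
  rw [Real.div_rpow hx.le hp.le, div_le_iff₀ (Real.rpow_pos_of_pos hp p)] at h2
  rw [Real.exp_neg, ← div_eq_mul_inv, div_le_iff₀ (Real.exp_pos x)]
  linarith

lemma gint {p δ : ℝ} (hp : 0 < p) (hδ : 0 < δ) :
    IntegrableOn (fun t : ℝ => t ^ (p - 1) * Real.exp (-(δ * t))) (Ioi 0) ∧
    ∫ t in Ioi (0 : ℝ), t ^ (p - 1) * Real.exp (-(δ * t)) = Real.Gamma p * δ ^ (-p) := by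
  have h := Real.integral_rpow_mul_exp_neg_mul_Ioi hp hδ
  have e : (1 / δ) ^ p * Real.Gamma p = Real.Gamma p * δ ^ (-p) := by
    rw [one_div, Real.inv_rpow hδ.le, Real.rpow_neg hδ.le, mul_comm]
  refine ⟨?_, by rw [h, e]⟩
  by_contra hc
  have h0 := integral_undef hc
  rw [h, e] at h0
  have : 0 < Real.Gamma p * δ ^ (-p) := mul_pos (Real.Gamma_pos_of_pos hp) (Real.rpow_pos_of_pos hδ _)
  linarith

theorem t_CS : Pool.Agent.L0h52.BZ.S_CS := by
  intro σ ε C hσ1 hσ2 hε g hg hg0 hC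
  have hC0 : 0 ≤ C := by
    have := hC 1 le_rfl
    rw [intervalIntegral.integral_same, Real.one_rpow, mul_one] at this
    exact this
  set M := (1 + ε) ^ (1 + ε) + Real.Gamma (2 + ε) with hM
  have hM0 : 0 ≤ M := by
    have h1 : 0 < (1 + ε) ^ (1 + ε) := Real.rpow_pos_of_pos (by linarith) _
    have h2 : 0 < Real.Gamma (2 + ε) := Real.Gamma_pos_of_pos (by linarith)
    linarith
  have hG0 : 0 < Real.Gamma (2 * σ) := Real.Gamma_pos_of_pos (by linarith)
  refine ⟨(Real.Gamma (2 * σ) + C * M) / 2, by positivity, fun δ hδ hδ1 => ?_⟩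
  have hg2 : Continuous (fun t => g t ^ 2) := hg.pow 2
  -- the mean square
  set G : ℝ → ℝ := fun T => ∫ t in (1 : ℝ)..T, g t ^ 2 with hG
  have hGd : ∀ x, HasDerivAt G (g x ^ 2) x := fun x =>
    intervalIntegral.integral_hasDerivAt_right (hg2.intervalIntegrable _ _)
      (hg2.stronglyMeasurableAtFilter _ _) hg2.continuousAt
  have hGc : Continuous G := continuous_iff_continuousAt.2 fun x => (hGd x).continuousAt
  have hbound : ∀ N : ℝ, 1 ≤ N → ∫ t in (1 : ℝ)..N, Real.exp (-(δ * t)) * g t ^ 2 ≤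
      C * M * δ ^ (-(1 + ε)) := by
    intro N hN
    have hud : ∀ x : ℝ, HasDerivAt (fun t => Real.exp (-(δ * t))) (-δ * Real.exp (-(δ * x))) x := by
      intro x
      have h1 : HasDerivAt (fun t : ℝ => -(δ * t)) (-(δ * 1)) x := ((hasDerivAt_id x).const_mul δ).neg
      have h2 := h1.exp
      exact h2.congr_deriv (by ring)
    have hparts := intervalIntegral.integral_mul_deriv_eq_deriv_mul (a := 1) (b := N)
      (u := fun t => Real.exp (-(δ * t))) (v := G) (u' := fun t => -δ * Real.exp (-(δ * t)))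
      (v' := fun t => g t ^ 2) (fun x _ => hud x) (fun x _ => hGd x)
      (Continuous.intervalIntegrable (by fun_prop) _ _) (hg2.intervalIntegrable _ _)
    have hG1 : G 1 = 0 := intervalIntegral.integral_same
    rw [hparts, hG1, mul_zero, sub_zero]
    have hGN : ∀ T, 1 ≤ T → G T ≤ C * T ^ (1 + ε) := hC
    have hN0 : 0 < N := by linarith
    have a1 : Real.exp (-(δ * N)) * G N ≤ C * (1 + ε) ^ (1 + ε) * δ ^ (-(1 + ε)) := by
      have b1 := rpow_exp (p := 1 + ε) (x := δ * N) (by linarith) (by positivity)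
      rw [Real.mul_rpow hδ.le hN0.le] at b1
      have b2 : δ ^ (1 + ε) * δ ^ (-(1 + ε)) = 1 := by
        rw [← Real.rpow_add hδ, add_neg_cancel, Real.rpow_zero]
      have b3 : 0 < δ ^ (-(1 + ε)) := Real.rpow_pos_of_pos hδ _
      calc Real.exp (-(δ * N)) * G N ≤ Real.exp (-(δ * N)) * (C * N ^ (1 + ε)) :=
            mul_le_mul_of_nonneg_left (hGN N hN) (Real.exp_pos _).le
        _ = C * (N ^ (1 + ε) * Real.exp (-(δ * N))) * (δ ^ (1 + ε) * δ ^ (-(1 + ε))) := by
            rw [b2]; ring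
        _ = C * (δ ^ (1 + ε) * N ^ (1 + ε) * Real.exp (-(δ * N))) * δ ^ (-(1 + ε)) := by ring
        _ ≤ C * (1 + ε) ^ (1 + ε) * δ ^ (-(1 + ε)) := by
            apply mul_le_mul_of_nonneg_right _ b3.le
            exact mul_le_mul_of_nonneg_left b1 hC0
    have a2 : -∫ t in (1 : ℝ)..N, -δ * Real.exp (-(δ * t)) * G t ≤
        C * Real.Gamma (2 + ε) * δ ^ (-(1 + ε)) := by
      obtain ⟨i1, i2⟩ := gint (p := 2 + ε) (by linarith) hδ
      have e1 : -∫ t in (1 : ℝ)..N, -δ * Real.exp (-(δ * t)) * G t =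
          ∫ t in (1 : ℝ)..N, δ * Real.exp (-(δ * t)) * G t := by
        rw [← intervalIntegral.integral_neg]
        congr 1
        funext t
        ring
      rw [e1]
      have e2 : ∫ t in (1 : ℝ)..N, δ * Real.exp (-(δ * t)) * G t ≤
          ∫ t in (1 : ℝ)..N, δ * C * (t ^ (2 + ε - 1) * Real.exp (-(δ * t))) := by
        apply intervalIntegral.integral_mono_on hN
        · exact Continuous.intervalIntegrable (by fun_prop) _ _
        · apply ContinuousOn.intervalIntegrable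
          rw [Set.uIcc_of_le hN]
          intro x hx
          have hx0 : 0 < x := lt_of_lt_of_le one_pos hx.1
          apply ContinuousAt.continuousWithinAt
          apply ContinuousAt.mul continuousAt_const
          apply ContinuousAt.mul
          · exact Real.continuousAt_rpow_const x _ (Or.inl hx0.ne')
          · fun_prop
        · intro x hx
          have hx1 : 1 ≤ x := hx.1
          have h1 := hGN x hx1
          have h2 : 0 ≤ δ * Real.exp (-(δ * x)) := by positivity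
          have h3 := mul_le_mul_of_nonneg_left h1 h2
          rw [show 2 + ε - 1 = 1 + ε by ring]
          refine h3.trans (le_of_eq ?_)
          ring
      refine e2.trans ?_
      rw [intervalIntegral.integral_const_mul, intervalIntegral.integral_of_le hN]
      have e3 : ∫ t in Ioc (1 : ℝ) N, t ^ (2 + ε - 1) * Real.exp (-(δ * t)) ≤
          Real.Gamma (2 + ε) * δ ^ (-(2 + ε)) := by
        rw [← i2]
        apply setIntegral_mono_set i1
        · rw [Filter.EventuallyLE, ae_restrict_iff' measurableSet_Ioi]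
          exact Filter.Eventually.of_forall fun t ht =>
            mul_nonneg (Real.rpow_nonneg (le_of_lt ht) _) (Real.exp_pos _).le
        · exact (Ioc_subset_Ioi_self.trans (Ioi_subset_Ioi zero_le_one)).eventuallyLE
      have e4 : δ * δ ^ (-(2 + ε)) = δ ^ (-(1 + ε)) := by
        conv_lhs => rw [← Real.rpow_one δ]
        rw [← Real.rpow_mul hδ.le, one_mul, ← Real.rpow_add hδ]
        congr 1
        ring
      calc δ * C * ∫ t in Ioc (1 : ℝ) N, t ^ (2 + ε - 1) * Real.exp (-(δ * t)) ≤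
            δ * C * (Real.Gamma (2 + ε) * δ ^ (-(2 + ε))) :=
            mul_le_mul_of_nonneg_left e3 (by positivity)
        _ = C * Real.Gamma (2 + ε) * (δ * δ ^ (-(2 + ε))) := by ring
        _ = _ := by rw [e4]
    calc Real.exp (-(δ * N)) * G N - ∫ t in (1 : ℝ)..N, -δ * Real.exp (-(δ * t)) * G t =
          Real.exp (-(δ * N)) * G N + -∫ t in (1 : ℝ)..N, -δ * Real.exp (-(δ * t)) * G t := by ring
      _ ≤ C * (1 + ε) ^ (1 + ε) * δ ^ (-(1 + ε)) + C * Real.Gamma (2 + ε) * δ ^ (-(1 + ε)) :=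
          add_le_add a1 a2
      _ = C * M * δ ^ (-(1 + ε)) := by rw [hM]; ring
  -- integrability of the second factor
  have hcont2 : Continuous (fun t => Real.exp (-(δ * t)) * g t ^ 2) := by fun_prop
  have hnn2 : ∀ t, 0 ≤ Real.exp (-(δ * t)) * g t ^ 2 := fun t => by positivity
  have hI2 : IntegrableOn (fun t => Real.exp (-(δ * t)) * g t ^ 2) (Ioi 1) := by
    refine integrableOn_Ioi_of_intervalIntegral_norm_bounded (C * M * δ ^ (-(1 + ε))) 1
      (l := atTop) (b := fun n : ℝ => n) (fun n => ?_) tendsto_id ?_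
    · exact (hcont2.integrableOn_Icc (a := 1) (b := n)).mono_set Ioc_subset_Icc_self
    · filter_upwards [eventually_ge_atTop (1 : ℝ)] with N hN
      have : ∫ t in (1 : ℝ)..N, ‖Real.exp (-(δ * t)) * g t ^ 2‖ =
          ∫ t in (1 : ℝ)..N, Real.exp (-(δ * t)) * g t ^ 2 := by
        congr 1
        funext t
        exact Real.norm_of_nonneg (hnn2 t)
      rw [this]
      exact hbound N hN
  have hV2 : ∫ t in Ioi (1 : ℝ), Real.exp (-(δ * t)) * g t ^ 2 ≤ C * M * δ ^ (-(1 + ε)) := by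
    refine le_of_tendsto (intervalIntegral_tendsto_integral_Ioi 1 hI2 tendsto_id) ?_
    filter_upwards [eventually_ge_atTop (1 : ℝ)] with N hN
    exact hbound N hN
  -- the first factor
  obtain ⟨j1, j2⟩ := gint (p := 2 * σ) (by linarith) hδ
  have hI1 : IntegrableOn (fun t : ℝ => t ^ (2 * σ - 1) * Real.exp (-(δ * t))) (Ioi 1) :=
    j1.mono_set (Ioi_subset_Ioi zero_le_one)
  have hV1 : ∫ t in Ioi (1 : ℝ), t ^ (2 * σ - 1) * Real.exp (-(δ * t)) ≤
      Real.Gamma (2 * σ) * δ ^ (-(2 * σ)) := by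
    rw [← j2]
    apply setIntegral_mono_set j1
    · rw [Filter.EventuallyLE, ae_restrict_iff' measurableSet_Ioi]
      exact Filter.Eventually.of_forall fun t ht =>
        mul_nonneg (Real.rpow_nonneg (le_of_lt ht) _) (Real.exp_pos _).le
    · exact (Ioi_subset_Ioi zero_le_one).eventuallyLE
  -- the product
  set κ : ℝ := δ ^ (σ - 1 / 2 - ε / 2) with hκ
  have hκ0 : 0 < κ := Real.rpow_pos_of_pos hδ _
  have hdom : ∀ t ∈ Ioi (1 : ℝ), t ^ (σ - 1 / 2) * Real.exp (-δ * t) * g t ≤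
      (κ * (t ^ (2 * σ - 1) * Real.exp (-(δ * t))) + κ⁻¹ * (Real.exp (-(δ * t)) * g t ^ 2)) / 2 := by
    intro t ht
    have ht0 : (0 : ℝ) < t := lt_trans one_pos ht
    have h1 : t ^ (2 * σ - 1) = (t ^ (σ - 1 / 2)) ^ 2 := by
      rw [← Real.rpow_natCast, ← Real.rpow_mul ht0.le]
      congr 1
      push_cast
      ring
    rw [h1, neg_mul]
    have h2 : 0 ≤ Real.exp (-(δ * t)) / (2 * κ) * (κ * t ^ (σ - 1 / 2) - g t) ^ 2 := by positivity
    have h3 : Real.exp (-(δ * t)) / (2 * κ) * (κ * t ^ (σ - 1 / 2) - g t) ^ 2 =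
        (κ * ((t ^ (σ - 1 / 2)) ^ 2 * Real.exp (-(δ * t))) + κ⁻¹ * (Real.exp (-(δ * t)) * g t ^ 2)) / 2 -
          t ^ (σ - 1 / 2) * Real.exp (-(δ * t)) * g t := by
      field_simp
      ring
    linarith
  have hF : IntegrableOn (fun t : ℝ => (κ * (t ^ (2 * σ - 1) * Real.exp (-(δ * t))) +
      κ⁻¹ * (Real.exp (-(δ * t)) * g t ^ 2)) / 2) (Ioi 1) :=
    ((hI1.const_mul κ).add (hI2.const_mul κ⁻¹)).div_const 2
  have hnn : ∀ t ∈ Ioi (1 : ℝ), 0 ≤ t ^ (σ - 1 / 2) * Real.exp (-δ * t) * g t := by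
    intro t ht
    have ht0 : (0 : ℝ) < t := lt_trans one_pos ht
    exact mul_nonneg (mul_nonneg (Real.rpow_nonneg ht0.le _) (Real.exp_pos _).le) (hg0 t)
  have hint : IntegrableOn (fun t : ℝ => t ^ (σ - 1 / 2) * Real.exp (-δ * t) * g t) (Ioi 1) := by
    refine Integrable.mono' hF ?_ ?_
    · apply ContinuousOn.aestronglyMeasurable _ measurableSet_Ioi
      intro x hx
      have hx0 : (0 : ℝ) < x := lt_trans one_pos hx
      apply ContinuousAt.continuousWithinAt
      apply ContinuousAt.mul _ hg.continuousAt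
      apply ContinuousAt.mul
      · exact Real.continuousAt_rpow_const x _ (Or.inl hx0.ne')
      · fun_prop
    · rw [ae_restrict_iff' measurableSet_Ioi]
      refine Filter.Eventually.of_forall fun t ht => ?_
      rw [Real.norm_of_nonneg (hnn t ht)]
      exact hdom t ht
  refine ⟨hint, ?_⟩
  have hle := setIntegral_mono_on hint hF measurableSet_Ioi hdom
  refine hle.trans ?_
  rw [integral_div, integral_add (hI1.const_mul κ) (hI2.const_mul κ⁻¹), integral_const_mul,
    integral_const_mul]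
  have p1 : κ * δ ^ (-(2 * σ)) = δ ^ (-(σ + 1 / 2 + ε / 2)) := by
    rw [hκ, ← Real.rpow_add hδ]
    congr 1
    ring
  have p2 : κ⁻¹ * δ ^ (-(1 + ε)) = δ ^ (-(σ + 1 / 2 + ε / 2)) := by
    rw [hκ, ← Real.rpow_neg hδ.le, ← Real.rpow_add hδ]
    congr 1
    ring
  have q1 := mul_le_mul_of_nonneg_left hV1 hκ0.le
  have q2 := mul_le_mul_of_nonneg_left hV2 (inv_pos.2 hκ0).le
  have q3 : κ * (Real.Gamma (2 * σ) * δ ^ (-(2 * σ))) =
      Real.Gamma (2 * σ) * δ ^ (-(σ + 1 / 2 + ε / 2)) := by rw [← p1]; ring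
  have q4 : κ⁻¹ * (C * M * δ ^ (-(1 + ε))) = C * M * δ ^ (-(σ + 1 / 2 + ε / 2)) := by
    rw [← p2]; ring
  rw [q3] at q1
  rw [q4] at q2
  linarith

end Pool.Agent.L0h71.BZ
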