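import Pool.Agent.L0h52.BZ.Stm
import Pool.Agent.H52R4.PZT1

/-!
# BZ, GAM: Stirling's bound (helper71)
-/

set_option autoImplicit false

namespace Pool.Agent.L0h71.BZ

open Complex

theorem gam_le {z : ℂ} (h1 : 1 ≤ z.re) (h2 : z.re ≤ 3 / 2) (hv : 1 ≤ z.im) :
    ‖Gamma z‖ ≤ 20 * z.im ^ (z.re - 1 / 2) * Real.exp (-(Real.pi * z.im / 2)) := by
  have hz : 0 < z.re := by linarith
  have h3 := H401R2.stirling hz hv
  have hpi := Real.pi_lt_d2
  have hpi0 := Real.pi_pos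
  have h4 : ‖H401R2.sA z / ((√(2 * Real.pi) : ℝ) : ℂ)‖ ≤ 1 + Real.pi / 8 := by
    have h5 : Real.pi / (8 * z.im) ≤ Real.pi / 8 := by
      apply div_le_div_of_nonneg_left hpi0.le (by norm_num) (by linarith)
    calc ‖H401R2.sA z / ((√(2 * Real.pi) : ℝ) : ℂ)‖
        = ‖(H401R2.sA z / ((√(2 * Real.pi) : ℝ) : ℂ) - 1) + 1‖ := by ring_nf
      _ ≤ ‖H401R2.sA z / ((√(2 * Real.pi) : ℝ) : ℂ) - 1‖ + ‖(1 : ℂ)‖ := norm_add_le _ _
      _ ≤ 1 + Real.pi / 8 := by rw [norm_one]; linarith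
  have hs : 0 < √(2 * Real.pi) := by positivity
  have hs3 : √(2 * Real.pi) ≤ 3 := by
    rw [Real.sqrt_le_left (by norm_num)]
    linarith
  have h5 : ‖H401R2.sA z‖ ≤ 5 := by
    rw [norm_div, Complex.norm_real, Real.norm_of_nonneg hs.le, div_le_iff₀ hs] at h4
    nlinarith
  have h6 : Gamma z = H401R2.sA z * exp ((z - 1/2) * log z - z) := by
    unfold H401R2.sA
    rw [mul_assoc, ← Complex.exp_add, neg_add_cancel, Complex.exp_zero, mul_one]
  have h7 : ‖exp ((z - 1/2) * log z - z)‖ ≤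
      4 * z.im ^ (z.re - 1 / 2) * Real.exp (-(Real.pi * z.im / 2)) := by
    rw [Complex.norm_exp]
    have h8 := Pool.Agent.H52R4.PZT1.stir_re hz hv
    refine (Real.exp_le_exp.2 h8).trans ?_
    rw [sub_eq_add_neg, Real.exp_add]
    refine mul_le_mul_of_nonneg_right ?_ (Real.exp_pos _).le
    have him : |z.im| = z.im := abs_of_pos (by linarith)
    have h9 : 1 ≤ ‖z‖ := by
      have := Complex.abs_im_le_norm z
      linarith
    have h10 : ‖z‖ ≤ 4 * z.im := by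
      have h := Complex.norm_le_abs_re_add_abs_im z
      rw [him, abs_of_pos hz] at h
      linarith
    have h11 : Real.exp ((z.re - 1 / 2) * Real.log ‖z‖) = ‖z‖ ^ (z.re - 1 / 2) := by
      rw [Real.rpow_def_of_pos (by linarith), mul_comm]
    rw [h11]
    calc ‖z‖ ^ (z.re - 1 / 2) ≤ (4 * z.im) ^ (z.re - 1 / 2) :=
          Real.rpow_le_rpow (norm_nonneg _) h10 (by linarith)
      _ = 4 ^ (z.re - 1 / 2) * z.im ^ (z.re - 1 / 2) :=
          Real.mul_rpow (by norm_num) (by linarith)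
      _ ≤ 4 ^ (1 : ℝ) * z.im ^ (z.re - 1 / 2) := by
          apply mul_le_mul_of_nonneg_right _ (Real.rpow_nonneg (by linarith) _)
          exact Real.rpow_le_rpow_of_exponent_le (by norm_num) (by linarith)
      _ = 4 * z.im ^ (z.re - 1 / 2) := by rw [Real.rpow_one]
  rw [h6, norm_mul]
  calc ‖H401R2.sA z‖ * ‖exp ((z - 1/2) * log z - z)‖
      ≤ 5 * (4 * z.im ^ (z.re - 1 / 2) * Real.exp (-(Real.pi * z.im / 2))) :=
        mul_le_mul h5 h7 (norm_nonneg _) (by norm_num)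
    _ = _ := by ring

theorem t_GAM : Pool.Agent.L0h52.BZ.S_GAM := by
  refine ⟨20, by norm_num, fun σ t h1 h2 ht => ?_⟩
  have hre : ((σ : ℂ) + (t : ℂ) * I).re = σ := by simp
  have him : ((σ : ℂ) + (t : ℂ) * I).im = t := by simp
  have h := gam_le (z := (σ : ℂ) + (t : ℂ) * I) (by rw [hre]; exact h1) (by rw [hre]; exact h2)
    (by rw [him]; exact ht)
  rw [hre, him] at h
  rw [show Real.pi / 2 * t = Real.pi * t / 2 by ring]
  exact h

end Pool.Agent.L0h71.BZ
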